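import Pool.Agent.Helper30.SY.St

/-!
# Project SY (MP_2d701a_co), module IMP: the average cone improved on the 4-sets with a vertex which dominates, or is dominated by, a cyclic triangle
-/

set_option autoImplicit false

namespace Pool.Agent.Helper88.SY

open Finset Pool.Agent.Helper30.SY

section

variable {n : ℕ} (s : Fin n → Fin n → ℤ)

private noncomputable def PP (z a b c : Fin n) : ℝ := if WT s z a b c then (1 : ℝ) else 0

private noncomputable def QQ (z a b c : Fin n) : ℝ := if LT' s z a b c then (1 : ℝ) else 0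

private lemma PP_nn (z a b c : Fin n) : 0 ≤ PP s z a b c := by
  unfold PP
  split_ifs <;> norm_num

private lemma QQ_nn (z a b c : Fin n) : 0 ≤ QQ s z a b c := by
  unfold QQ
  split_ifs <;> norm_num

private lemma PP_le (z a b c : Fin n) : PP s z a b c ≤ 1 := by
  unfold PP
  split_ifs <;> norm_num

private lemma QQ_le (z a b c : Fin n) : QQ s z a b c ≤ 1 := by
  unfold QQ
  split_ifs <;> norm_num

private lemma PP_rot (z a b c : Fin n) : PP s z a b c = PP s z b c a := by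
  unfold PP
  have h : WT s z a b c ↔ WT s z b c a :=
    ⟨fun ⟨h1, h2, h3, h4, h5, h6⟩ => ⟨h2, h3, h1, h5, h6, h4⟩, fun ⟨h1, h2, h3, h4, h5, h6⟩ => ⟨h3, h1, h2, h6, h4, h5⟩⟩
  simp only [h]

private lemma QQ_rot (z a b c : Fin n) : QQ s z a b c = QQ s z b c a := by
  unfold QQ
  have h : LT' s z a b c ↔ LT' s z b c a :=
    ⟨fun ⟨h1, h2, h3, h4, h5, h6⟩ => ⟨h2, h3, h1, h5, h6, h4⟩, fun ⟨h1, h2, h3, h4, h5, h6⟩ => ⟨h3, h1, h2, h6, h4, h5⟩⟩
  simp only [h]

private lemma ne_of_one (hs : Circ s) {a b : Fin n} (h : s a b = 1) : a ≠ b := by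
  rintro rfl
  have := hs.sk a a
  omega

/-- the two sums which are added and subtracted -/
private noncomputable def U1 (x y w : Fin n) : ℝ := ∑ z, (PP s z x y w + QQ s z x y w)

private noncomputable def U2 (x y w : Fin n) : ℝ := ∑ z, (PP s x y w z + QQ s w x y z)

private lemma U1_nn (x y w : Fin n) : 0 ≤ U1 s x y w :=
  Finset.sum_nonneg fun _ _ => add_nonneg (PP_nn s _ _ _ _) (QQ_nn s _ _ _ _)

private lemma U1_le (x y w : Fin n) : U1 s x y w ≤ 2 * n := by
  unfold U1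
  calc ∑ z, (PP s z x y w + QQ s z x y w) ≤ ∑ _z : Fin n, (2 : ℝ) :=
        Finset.sum_le_sum fun z _ => by
          have h1 := PP_le s z x y w
          have h2 := QQ_le s z x y w
          linarith
    _ = 2 * n := by
        rw [Finset.sum_const, Finset.card_univ, Fintype.card_fin, nsmul_eq_mul]
        ring

private lemma U2_nn (x y w : Fin n) : 0 ≤ U2 s x y w :=
  Finset.sum_nonneg fun _ _ => add_nonneg (PP_nn s _ _ _ _) (QQ_nn s _ _ _ _)

private lemma U2_le (x y w : Fin n) : U2 s x y w ≤ 2 * n := by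
  unfold U2
  calc ∑ z, (PP s x y w z + QQ s w x y z) ≤ ∑ _z : Fin n, (2 : ℝ) :=
        Finset.sum_le_sum fun z _ => by
          have h1 := PP_le s x y w z
          have h2 := QQ_le s w x y z
          linarith
    _ = 2 * n := by
        rw [Finset.sum_const, Finset.card_univ, Fintype.card_fin, nsmul_eq_mul]
        ring

private lemma U1_zero (x y w : Fin n) (h : ¬ (s x y = 1 ∧ s y w = 1 ∧ s w x = 1)) : U1 s x y w = 0 := by
  unfold U1
  refine Finset.sum_eq_zero fun z _ => ?_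
  have h1 : ¬ WT s z x y w := fun ⟨_, _, _, h4, h5, h6⟩ => h ⟨h4, h5, h6⟩
  have h2 : ¬ LT' s z x y w := fun ⟨_, _, _, h4, h5, h6⟩ => h ⟨h4, h5, h6⟩
  unfold PP QQ
  rw [if_neg h1, if_neg h2, add_zero]

private lemma U2_zero (x y w : Fin n) (h : ¬ (s x y = 1 ∧ s y w = 1 ∧ s x w = 1)) : U2 s x y w = 0 := by
  unfold U2
  refine Finset.sum_eq_zero fun z _ => ?_
  have h1 : ¬ WT s x y w z := fun ⟨h1, h2, _, h4, _, _⟩ => h ⟨h1, h4, h2⟩
  have h2 : ¬ LT' s w x y z := fun ⟨h1, h2, _, h4, _, _⟩ => h ⟨h4, h2, h1⟩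
  unfold PP QQ
  rw [if_neg h1, if_neg h2, add_zero]

/-- the flow which is subtracted -/
private noncomputable def GG (u v : Fin n) : ℝ := ∑ w, ∑ z, (PP s u v w z + QQ s u v w z)

private lemma GG_nn (u v : Fin n) : 0 ≤ GG s u v :=
  Finset.sum_nonneg fun _ _ => Finset.sum_nonneg fun _ _ => add_nonneg (PP_nn s _ _ _ _) (QQ_nn s _ _ _ _)

private lemma fl_U1 (u v : Fin n) : fl (U1 s) u v = 3 * ∑ w, ∑ z, (PP s z u v w + QQ s z u v w) := by
  unfold fl U1
  rw [Finset.mul_sum]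
  refine Finset.sum_congr rfl fun w _ => ?_
  have h1 : ∑ z, (PP s z w u v + QQ s z w u v) = ∑ z, (PP s z u v w + QQ s z u v w) :=
    Finset.sum_congr rfl fun z _ => by rw [PP_rot s z w u v, QQ_rot s z w u v]
  have h2 : ∑ z, (PP s z v w u + QQ s z v w u) = ∑ z, (PP s z u v w + QQ s z u v w) :=
    Finset.sum_congr rfl fun z _ => by
      rw [PP_rot s z v w u, QQ_rot s z v w u, PP_rot s z w u v, QQ_rot s z w u v]
  rw [h1, h2]
  ring

private lemma fl_U2 (u v : Fin n) : fl (U2 s) u v = ∑ w, ∑ z, (PP s z u v w + QQ s z u v w) + (GG s u v + GG s v u) := by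
  have e1 : ∑ w, ∑ z, PP s w u v z = ∑ w, ∑ z, PP s z u v w := Finset.sum_comm
  have e2 : ∑ w, ∑ z, QQ s w u v z = ∑ w, ∑ z, QQ s z u v w := Finset.sum_comm
  have e3 : ∑ w, ∑ z, PP s v w u z = ∑ w, ∑ z, PP s v u w z := by
    rw [Finset.sum_comm]
    exact Finset.sum_congr rfl fun z _ => Finset.sum_congr rfl fun w _ => PP_rot s v w u z
  have e4 : ∑ w, ∑ z, QQ s v w u z = ∑ w, ∑ z, QQ s v u w z := by
    rw [Finset.sum_comm]
    exact Finset.sum_congr rfl fun z _ => Finset.sum_congr rfl fun w _ => QQ_rot s v w u z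
  unfold fl U2 GG
  simp only [Finset.sum_add_distrib]
  rw [e1, e2, e3, e4]
  ring

private lemma tot1 : ∑ x, ∑ y, ∑ w, U1 s x y w = nW s := by
  unfold U1 nW
  have h1 : ∀ x y : Fin n, ∑ w, ∑ z, (PP s z x y w + QQ s z x y w) = ∑ z, ∑ w, (PP s z x y w + QQ s z x y w) :=
    fun x y => Finset.sum_comm
  have h2 : ∀ x : Fin n, ∑ y, ∑ z, ∑ w, (PP s z x y w + QQ s z x y w) = ∑ z, ∑ y, ∑ w, (PP s z x y w + QQ s z x y w) :=
    fun x => Finset.sum_comm
  simp only [h1, h2]
  rw [Finset.sum_comm]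
  rfl

private lemma tot2 : ∑ x, ∑ y, ∑ w, U2 s x y w = nW s := by
  have e : ∑ x, ∑ y, ∑ w, ∑ z, QQ s w x y z = ∑ z, ∑ a, ∑ b, ∑ c, QQ s z a b c := by
    have h2 : ∀ x : Fin n, ∑ y, ∑ w, ∑ z, QQ s w x y z = ∑ w, ∑ y, ∑ z, QQ s w x y z :=
      fun x => Finset.sum_comm
    simp only [h2]
    rw [Finset.sum_comm]
  unfold U2 nW
  simp only [Finset.sum_add_distrib]
  rw [e]
  rfl

end

/-- Module IMP. -/
theorem hIMP : StIMP := by
  intro hBAS n s hn hs
  obtain ⟨b1, b2, b3, b4, b5, b6, b7⟩ := hBAS n s hn hs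
  have hn0 : (0 : ℝ) < n := by exact_mod_cast hn
  set t : ℝ := 1 / (18 * (n : ℝ) ^ 2) with ht
  have ht0 : 0 < t := by positivity
  have htn : 3 * t * (2 * n) = 1 / (3 * n) := by
    rw [ht]
    field_simp
    norm_num
  have htn' : t * (2 * n) ≤ 1 / n := by
    have h1 : t * (2 * n) = 1 / 9 * (1 / n) := by
      rw [ht]
      field_simp
      norm_num
    rw [h1]
    have : 0 < 1 / (n : ℝ) := by positivity
    linarith
  set X : Fin n → Fin n → Fin n → ℝ := fun x y w => X0 s x y w + t * U1 s x y w - 3 * t * U2 s x y w with hX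
  have hfl : ∀ u v, fl X u v = fl (X0 s) u v - 3 * t * (GG s u v + GG s v u) := by
    intro u v
    have h1 : fl X u v = fl (X0 s) u v + t * fl (U1 s) u v - 3 * t * fl (U2 s) u v := by
      unfold fl
      rw [Finset.mul_sum, Finset.mul_sum, ← Finset.sum_add_distrib, ← Finset.sum_sub_distrib]
      refine Finset.sum_congr rfl fun w _ => ?_
      rw [hX]
      ring
    rw [h1, fl_U1, fl_U2]
    ring
  refine ⟨X, ⟨?_, ?_, ?_, ?_, ?_⟩, ?_⟩
  · intro a b c
    show 0 ≤ X0 s a b c + t * U1 s a b c - 3 * t * U2 s a b c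
    have h1 := U1_nn s a b c
    have h2 := b1 a b c
    have h3 : 0 ≤ t * U1 s a b c := mul_nonneg ht0.le h1
    by_cases h : s a b = 1 ∧ s b c = 1 ∧ s a c = 1
    · rw [b6 a b c h.1 h.2.1 h.2.2, ← htn]
      have h4 : 3 * t * U2 s a b c ≤ 3 * t * (2 * n) := mul_le_mul_of_nonneg_left (U2_le s a b c) (by positivity)
      linarith
    · rw [U2_zero s a b c h]
      linarith
  · intro a b c
    show X0 s a b c + t * U1 s a b c - 3 * t * U2 s a b c ≤ 2 / n
    have h1 : t * U1 s a b c ≤ t * (2 * n) := mul_le_mul_of_nonneg_left (U1_le s a b c) ht0.le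
    have h2 : 0 ≤ 3 * t * U2 s a b c := mul_nonneg (by positivity) (U2_nn s a b c)
    have h3 := b2 a b c
    have h4 : (2 : ℝ) / n = 1 / n + 1 / n := by ring
    linarith
  · intro a b c h
    by_contra hcon
    apply h
    show X0 s a b c + t * U1 s a b c - 3 * t * U2 s a b c = 0
    have h1 : X0 s a b c = 0 := by
      by_contra h9
      exact hcon (b3 a b c h9)
    have h2 : U1 s a b c = 0 := U1_zero s a b c fun ⟨k1, k2, k3⟩ =>
      hcon ⟨ne_of_one s hs k1, ne_of_one s hs k2, ne_of_one s hs k3⟩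
    have h3 : U2 s a b c = 0 := U2_zero s a b c fun ⟨k1, k2, k3⟩ =>
      hcon ⟨ne_of_one s hs k1, ne_of_one s hs k2, (ne_of_one s hs k3).symm⟩
    rw [h1, h2, h3]
    ring
  · intro u v huv
    rw [hfl u v, hfl v u, ← b4 u v huv]
    ring
  · intro u v
    rcases b5 u v with h | h
    · left
      rw [hfl u v]
      have h1 : 0 ≤ 3 * t * (GG s u v + GG s v u) := mul_nonneg (by positivity) (add_nonneg (GG_nn s u v) (GG_nn s v u))
      linarith
    · right
      rw [hfl v u]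
      have h1 : 0 ≤ 3 * t * (GG s v u + GG s u v) := mul_nonneg (by positivity) (add_nonneg (GG_nn s v u) (GG_nn s u v))
      linarith
  · have h1 : ∑ a, ∑ b, ∑ c, X a b c = ∑ a, ∑ b, ∑ c, X0 s a b c + t * ∑ a, ∑ b, ∑ c, U1 s a b c -
        3 * t * ∑ a, ∑ b, ∑ c, U2 s a b c := by
      simp only [hX, Finset.sum_add_distrib, Finset.sum_sub_distrib, Finset.mul_sum]
    rw [h1, tot1, tot2]
    have h2 : t * nW s - 3 * t * nW s = -(nW s / (9 * (n : ℝ) ^ 2)) := by
      rw [ht]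
      field_simp
      ring
    linarith

end Pool.Agent.Helper88.SY
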